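import Mathlib

/-!
# The optimal pairwise coupling ratio for the cost |x - y|^q exceeds 2 for small q

For the cost `c_q (x, y) = |x - y|^q` on the real line, a coupling of all probability laws on the
line assigns to each law `P` a random variable `X P` on `[0, 1]` with law `P`.  We show that for
every `q` in `(0, 1/100]` the optimal pairwise coupling ratio is at least `9/4`; so it is not `2`.

Proof.  Take `1000` clusters of `6` points: distances inside a cluster are at most `5`, distances
between clusters are between `2^(1/q)` and `1001 * 2^(1/q)`, so the cost is about `1` inside a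
cluster and about `2` between clusters.  For each point `x` let `P_x` be the uniform law on all
the other points.  A coupling gives a random map `x ↦ f x` with `f x ≠ x`, and a weighted count of
the disagreements of an arbitrary map without fixed points (`comb`) forces the ratio up.
-/

set_option autoImplicit false
open Finset MeasureTheory
open scoped ENNReal NNReal

namespace Pool.Agent.Results.MP_ee92c9_pr.TwoFails

/-- The cost `|x - y|^q`, as an extended nonnegative number. -/
noncomputable def cost (q x y : ℝ) : ℝ≥0∞ := ENNReal.ofReal (|x - y| ^ q)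

/-- The optimal transport cost between two laws: the infimum of the expected cost over all joint
laws on the plane with marginals `P` and `Q`. -/
noncomputable def optCost (q : ℝ) (P Q : ProbabilityMeasure ℝ) : ℝ≥0∞ :=
  ⨅ (π : Measure (ℝ × ℝ)) (_ : π.map Prod.fst = P ∧ π.map Prod.snd = Q),
    ∫⁻ z, cost q z.1 z.2 ∂π

/-- A coupling of all probability laws on the line: for every law `P` a map `X P` which is
(Lebesgue, i.e. almost everywhere) measurable on `[0, 1]` and has law `P` there. -/
def IsCoupling (X : ProbabilityMeasure ℝ → ℝ → ℝ) : Prop :=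
  ∀ P : ProbabilityMeasure ℝ, AEMeasurable (X P) (volume.restrict (Set.Icc 0 1)) ∧
    (volume.restrict (Set.Icc 0 1)).map (X P) = P

/-- The pairwise coupling ratio of a family: the infimum of the real numbers `r ≥ 1` with
`E c(X_P, X_Q) ≤ r * C*(P, Q)` for all `P, Q` (it is `∞` if there is no such `r`). -/
noncomputable def ratio (q : ℝ) (X : ProbabilityMeasure ℝ → ℝ → ℝ) : ℝ≥0∞ :=
  ⨅ (r : ℝ≥0) (_ : 1 ≤ r ∧ ∀ P Q : ProbabilityMeasure ℝ,
    ∫⁻ u in Set.Icc (0:ℝ) 1, cost q (X P u) (X Q u) ≤ r * optCost q P Q), (r : ℝ≥0∞)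

/-- The optimal pairwise coupling ratio: the infimum over all couplings. -/
noncomputable def optRatio (q : ℝ) : ℝ≥0∞ :=
  ⨅ (X : ProbabilityMeasure ℝ → ℝ → ℝ) (_ : IsCoupling X), ratio q X

section
variable {n m : ℕ}

/-- two level cost -/
noncomputable def cc (x y : Fin n × Fin m) : ℝ := if x = y then 0 else if x.1 = y.1 then 1 else 2

lemma cc_nonneg (x y : Fin n × Fin m) : 0 ≤ cc x y := by
  unfold cc; split_ifs <;> norm_num

lemma cc_le (x y : Fin n × Fin m) : cc x y ≤ 2 := by
  unfold cc; split_ifs <;> norm_num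

lemma card_cluster (a : Fin n) : ((univ.filter fun x : Fin n × Fin m => x.1 = a).card : ℝ) = m := by
  have : (univ.filter fun x : Fin n × Fin m => x.1 = a) = ({a} : Finset (Fin n)) ×ˢ (univ : Finset (Fin m)) := by
    ext ⟨i, j⟩; simp [eq_comm]
  rw [this, card_product]; simp

lemma sum_cluster (a : Fin n) : ∑ x : Fin n × Fin m, (if x.1 = a then (1:ℝ) else 0) = m := by
  rw [← card_cluster (m := m) a, Finset.card_filter]; push_cast; rfl

lemma comb (hn : 0 < n) (hm : 0 < m) (f : Fin n × Fin m → Fin n × Fin m) (hf : ∀ x, f x ≠ x) :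
    2 * (m:ℝ) - 1 / m - 12 * m / n ≤
      (∑ x, ∑ y, if x.1 = y.1 then cc (f x) (f y) else 0) / (2 * m) +
      (∑ x, ∑ y, if x.1 = y.1 then 0 else cc (f x) (f y)) / (2 * (n * m)) +
      (2 - 2 / (m:ℝ)) * ∑ x, (if (f x).1 = x.1 then (1:ℝ) else 0) := by
  have hmR : (1:ℝ) ≤ m := by exact_mod_cast hm
  have hnR : (1:ℝ) ≤ n := by exact_mod_cast hn
  have hm0 : (0:ℝ) < m := by linarith
  have hn0 : (0:ℝ) < n := by linarith
  have : Nonempty (Fin n × Fin m) := ⟨(⟨0, hn⟩, ⟨0, hm⟩)⟩
  set S := (∑ x, ∑ y, if x.1 = y.1 then cc (f x) (f y) else 0) with hS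
  set F := (∑ x, ∑ y, if x.1 = y.1 then 0 else cc (f x) (f y)) with hF
  set H := ∑ x, (if (f x).1 = x.1 then (1:ℝ) else 0) with hH
  have hS0 : 0 ≤ S := by
    apply Finset.sum_nonneg; intro x _; apply Finset.sum_nonneg; intro y _
    split_ifs; exact cc_nonneg _ _; exact le_rfl
  have hF0 : 0 ≤ F := by
    apply Finset.sum_nonneg; intro x _; apply Finset.sum_nonneg; intro y _
    split_ifs; exact le_rfl; exact cc_nonneg _ _
  have hH0 : 0 ≤ H := by
    apply Finset.sum_nonneg; intro x _; split_ifs <;> norm_num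
  have h2m : 0 ≤ 2 - 2 / (m:ℝ) := by
    rw [sub_nonneg, div_le_iff₀ hm0]; linarith
  obtain ⟨p, -, hp⟩ := Finset.exists_max_image (univ : Finset (Fin n × Fin m))
    (fun p => ∑ x, if f x = p then (1:ℝ) else 0) univ_nonempty
  set k := ∑ x, (if f x = p then (1:ℝ) else 0) with hk
  have hN : (Fintype.card (Fin n × Fin m) : ℝ) = n * m := by simp
  by_cases hcase : 5 * (m:ℝ) ≤ n * m - k
  · -- many exceptional points
    have hFge : (n * m : ℝ) * (n * m - k - m) ≤ F := by
      have h1 : ∀ x y : Fin n × Fin m, 1 - (if f y = f x then (1:ℝ) else 0) - (if y.1 = x.1 then 1 else 0)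
          ≤ (if x.1 = y.1 then 0 else cc (f x) (f y)) := by
        intro x y
        unfold cc
        by_cases h1 : x.1 = y.1
        · simp only [h1, if_true]; split_ifs <;> norm_num
        · have h1' : ¬ y.1 = x.1 := fun h => h1 h.symm
          simp only [h1, h1', if_false]
          by_cases h2 : f x = f y
          · simp [h2]
          · have h2' : ¬ f y = f x := fun h => h2 h.symm
            simp only [h2, h2', if_false]
            split_ifs <;> norm_num
      calc (n * m : ℝ) * (n * m - k - m) = ∑ x : Fin n × Fin m, (n * m - k - m : ℝ) := by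
            rw [Finset.sum_const, nsmul_eq_mul, Finset.card_univ, hN]
        _ ≤ ∑ x : Fin n × Fin m, ∑ y, (1 - (if f y = f x then (1:ℝ) else 0) - (if y.1 = x.1 then 1 else 0)) := by
            apply Finset.sum_le_sum; intro x _
            rw [Finset.sum_sub_distrib, Finset.sum_sub_distrib, sum_cluster, Finset.sum_const, nsmul_eq_mul, Finset.card_univ, hN]
            have := hp (f x) (mem_univ _)
            linarith
        _ ≤ F := by
            apply Finset.sum_le_sum; intro x _; apply Finset.sum_le_sum; intro y _; exact h1 x y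
    have hF2 : 2 * (m:ℝ) ≤ F / (2 * (n * m)) := by
      rw [le_div_iff₀ (by positivity)]
      have : (n * m : ℝ) * (4 * m) ≤ (n * m : ℝ) * (n * m - k - m) := by
        apply mul_le_mul_of_nonneg_left _ (by positivity); linarith
      nlinarith
    have a1 : 0 ≤ S / (2 * m) := by positivity
    have a2 : 0 ≤ (2 - 2 / (m:ℝ)) * H := mul_nonneg h2m hH0
    have a3 : 0 ≤ 1 / (m:ℝ) := by positivity
    have a4 : 0 ≤ 12 * (m:ℝ) / n := by positivity
    linarith
  · push Not at hcase
    set D : Fin n × Fin m → ℝ := fun x => if x.1 = p.1 ∧ (f x).1 ≠ p.1 then 1 else 0 with hD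
    set E : Fin n × Fin m → ℝ := fun x => if x.1 = p.1 ∧ (f x).1 = p.1 ∧ f x ≠ p then 1 else 0 with hE
    set G : Fin n × Fin m → ℝ := fun x => if x.1 = p.1 ∧ f x = p then 1 else 0 with hG
    set B : Fin n × Fin m → ℝ := fun x => if x.1 ≠ p.1 ∧ f x = p then 1 else 0 with hB
    set h := ∑ x, D x with hh
    set e := ∑ x, E x with he
    set g := ∑ x, G x with hg
    set b := ∑ x, B x with hb
    have hsum : h + e + g = m := by
      rw [hh, he, hg, ← Finset.sum_add_distrib, ← Finset.sum_add_distrib, ← sum_cluster (n := n) (m := m) p.1]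
      apply Finset.sum_congr rfl; intro x _
      simp only [hD, hE, hG]
      by_cases h1 : x.1 = p.1
      · by_cases h2 : (f x).1 = p.1
        · by_cases h3 : f x = p
          · simp [h1, h3]
          · simp [h1, h2, h3]
        · have h3 : f x ≠ p := fun hx => h2 (by rw [hx])
          simp [h1, h2, h3]
      · simp [h1]
    have hD0 : ∀ x, 0 ≤ D x := by intro x; simp only [hD]; split_ifs <;> norm_num
    have hE0 : ∀ x, 0 ≤ E x := by intro x; simp only [hE]; split_ifs <;> norm_num
    have hG0 : ∀ x, 0 ≤ G x := by intro x; simp only [hG]; split_ifs <;> norm_num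
    have hB0 : ∀ x, 0 ≤ B x := by intro x; simp only [hB]; split_ifs <;> norm_num
    have hbk : k ≤ b + m := by
      rw [hk, hb, ← sum_cluster (n := n) (m := m) p.1, ← Finset.sum_add_distrib]
      apply Finset.sum_le_sum; intro x _
      simp only [hB]
      by_cases h1 : x.1 = p.1 <;> by_cases h2 : f x = p <;> simp [h1, h2]
    have hFlow : (2 * h + e) * b + b * (2 * h + e) ≤ F := by
      have h1 : ∀ x y, (2 * D x + E x) * B y + B x * (2 * D y + E y) ≤
          (if x.1 = y.1 then 0 else cc (f x) (f y)) := by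
        intro x y
        simp only [hD, hE, hB, cc]
        by_cases a1 : x.1 = p.1
        · by_cases b1 : y.1 = p.1
          · simp [a1, b1]
          · have c1 : ¬ x.1 = y.1 := fun hh => b1 (by rw [← hh, a1])
            by_cases b2 : f y = p
            · by_cases a2 : (f x).1 = p.1
              · by_cases a3 : f x = p
                · simp [a1, b1, b2, a3]
                · have : p.1 ≠ y.1 := fun hh => b1 hh.symm
                  simp [a1, b1, b2, a2, a3, this]
              · have a3 : ¬ f x = p := fun hh => a2 (by rw [hh])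
                have : p.1 ≠ y.1 := fun hh => b1 hh.symm
                simp [a1, b1, b2, a2, a3, this]
            · simp only [a1, b1, b2, c1]
              have : p.1 ≠ y.1 := fun hh => b1 hh.symm
              simp only [this]
              norm_num
              split_ifs <;> norm_num
        · by_cases b1 : y.1 = p.1
          · have c1 : ¬ x.1 = y.1 := fun hh => a1 (by rw [hh, b1])
            by_cases a2 : f x = p
            · by_cases b2 : (f y).1 = p.1
              · by_cases b3 : f y = p
                · simp [a1, b1, a2, b3]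
                · have b4 : ¬ p = f y := fun hh => b3 hh.symm
                  have b5 : p.1 = (f y).1 := b2.symm
                  simp [a1, b1, a2, b2, b3, b4]
              · have b3 : ¬ f y = p := fun hh => b2 (by rw [hh])
                have b4 : ¬ p = f y := fun hh => b3 hh.symm
                have b5 : ¬ p.1 = (f y).1 := fun hh => b2 hh.symm
                simp [a1, b1, a2, b2, b3, b4, b5]
            · simp only [a1, b1, a2]
              norm_num
              split_ifs <;> norm_num
          · simp only [a1, b1]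
            norm_num
            split_ifs <;> norm_num
      calc (2 * h + e) * b + b * (2 * h + e)
          = ∑ x, ∑ y, ((2 * D x + E x) * B y + B x * (2 * D y + E y)) := by
            simp only [Finset.sum_add_distrib, ← Finset.mul_sum, ← Finset.sum_mul]
            simp only [hh, he, hb]
        _ ≤ F := by
            apply Finset.sum_le_sum; intro x _; apply Finset.sum_le_sum; intro y _; exact h1 x y
    have hSlow : 2 * (2 * h * (e + g)) + 2 * (e * g) ≤ S := by
      have h1 : ∀ x y, 2 * D x * (E y + G y) + (E x + G x) * (2 * D y) + E x * G y + G x * E y ≤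
          (if x.1 = y.1 then cc (f x) (f y) else 0) := by
        intro x y
        simp only [hD, hE, hG, cc]
        by_cases a1 : x.1 = p.1
        · by_cases b1 : y.1 = p.1
          · by_cases a2 : (f x).1 = p.1 <;> by_cases b2 : (f y).1 = p.1
            · by_cases a3 : f x = p <;> by_cases b3 : f y = p
              · simp [a1, b1, a3, b3]
              · have b4 : ¬ p = f y := fun hh => b3 hh.symm
                simp [a1, b1, a3, b3, b2, b4]
              · simp [a1, b1, a3, b3, a2]
              · simp only [a1, b1, a2, b2, a3, b3]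
                norm_num
                split_ifs <;> norm_num
            · have b3 : ¬ f y = p := fun hh => b2 (by rw [hh])
              have b5 : ¬ (f x).1 = (f y).1 := fun hh => b2 (by rw [← hh, a2])
              have b6 : ¬ f x = f y := fun hh => b5 (by rw [hh])
              by_cases a3 : f x = p
              · have b7 : ¬ p = f y := fun hh => b3 hh.symm
                have b8 : ¬ p.1 = (f y).1 := fun hh => b2 hh.symm
                simp [a1, b1, a3, b3, b2, b7, b8]
              · have b8 : ¬ p.1 = (f y).1 := fun hh => b2 hh.symm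
                simp [a1, b1, a3, b3, a2, b2, b6, b8]
            · have a3 : ¬ f x = p := fun hh => a2 (by rw [hh])
              have b5 : ¬ (f x).1 = (f y).1 := fun hh => a2 (by rw [hh, b2])
              have b6 : ¬ f x = f y := fun hh => b5 (by rw [hh])
              by_cases b3 : f y = p
              · simp [a1, b1, a3, b3, a2]
              · simp [a1, b1, a3, b3, a2, b2, b6]
            · have a3 : ¬ f x = p := fun hh => a2 (by rw [hh])
              have b3 : ¬ f y = p := fun hh => b2 (by rw [hh])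
              simp only [a1, b1, a2, b2, a3, b3]
              norm_num
              split_ifs <;> norm_num
          · have : p.1 ≠ y.1 := fun hh => b1 hh.symm
            simp [a1, b1, this]
        · simp only [a1]
          norm_num
          split_ifs <;> norm_num
      calc 2 * (2 * h * (e + g)) + 2 * (e * g)
          = ∑ x, ∑ y, (2 * D x * (E y + G y) + (E x + G x) * (2 * D y) + E x * G y + G x * E y) := by
            simp only [Finset.sum_add_distrib, ← Finset.mul_sum, ← Finset.sum_mul]
            simp only [hh, he, hg]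
            ring
        _ ≤ S := by
            apply Finset.sum_le_sum; intro x _; apply Finset.sum_le_sum; intro y _; exact h1 x y
    have hHlow : e + g ≤ H := by
      rw [he, hg, ← Finset.sum_add_distrib]
      apply Finset.sum_le_sum; intro x _
      simp only [hE, hG]
      by_cases a1 : x.1 = p.1
      · by_cases a2 : (f x).1 = p.1
        · by_cases a3 : f x = p
          · simp [a1, a3]
          · simp [a1, a2, a3]
        · have a3 : ¬ f x = p := fun hh => a2 (by rw [hh])
          simp only [a1, a2, a3]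
          norm_num
      · simp only [a1]
        norm_num
        split_ifs <;> norm_num
    have hp1 : 1 ≤ h + e := by
      have h1 : 1 ≤ D p + E p := by
        simp only [hD, hE]
        by_cases a2 : (f p).1 = p.1
        · simp [a2, hf p]
        · simp [a2]
      have h2 : D p ≤ h := Finset.single_le_sum (f := D) (fun i _ => hD0 i) (mem_univ p)
      have h3 : E p ≤ e := Finset.single_le_sum (f := E) (fun i _ => hE0 i) (mem_univ p)
      linarith
    obtain ⟨hc, hhc⟩ : ∃ c : ℕ, h = c := by
      refine ⟨(univ.filter fun x => x.1 = p.1 ∧ (f x).1 ≠ p.1).card, ?_⟩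
      rw [hh, Finset.card_filter]; push_cast; rfl
    obtain ⟨ec, hec⟩ : ∃ c : ℕ, e = c := by
      refine ⟨(univ.filter fun x => x.1 = p.1 ∧ (f x).1 = p.1 ∧ f x ≠ p).card, ?_⟩
      rw [he, Finset.card_filter]; push_cast; rfl
    have hg0 : 0 ≤ g := Finset.sum_nonneg fun i _ => hG0 i
    have hh0 : 0 ≤ h := Finset.sum_nonneg fun i _ => hD0 i
    have he0 : 0 ≤ e := Finset.sum_nonneg fun i _ => hE0 i
    -- the key quadratic inequality
    have key : 2 * (m:ℝ) - 1 ≤ 2 * h * (m - h) + e * g + e * m + 2 * h := by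
      by_cases hz : hc = 0
      · have : h = 0 := by rw [hhc, hz]; simp
        rw [this] at hp1 hsum ⊢
        have : g = m - e := by linarith
        rw [this]
        nlinarith
      · have h1 : 1 ≤ h := by
          rw [hhc]; exact_mod_cast Nat.one_le_iff_ne_zero.mpr hz
        have h2 : 0 ≤ (h - 1) * (m - h) := mul_nonneg (by linarith) (by linarith)
        have h3 : 0 ≤ e * g := mul_nonneg he0 hg0
        have h4 : 0 ≤ e * m := by positivity
        nlinarith
    have hbN : (n * m : ℝ) - 6 * m ≤ b := by linarith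
    have hF3 : (2 * h + e) * (1 - 6 / n) ≤ F / (2 * (n * m)) := by
      rw [le_div_iff₀ (by positivity)]
      have h1 : (2 * h + e) * (n * m - 6 * m) ≤ (2 * h + e) * b :=
        mul_le_mul_of_nonneg_left hbN (by linarith)
      have h2 : (2 * h + e) * (1 - 6 / n) * (2 * (n * m)) = 2 * ((2 * h + e) * (n * m - 6 * m)) := by
        field_simp
      rw [h2]; nlinarith
    have hS3 : (2 * h * (e + g) + e * g) / m ≤ S / (2 * m) := by
      rw [div_le_div_iff₀ hm0 (by positivity)]
      nlinarith
    have hH3 : (2 - 2 / (m:ℝ)) * (m - h) ≤ (2 - 2 / (m:ℝ)) * H := by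
      apply mul_le_mul_of_nonneg_left _ h2m; linarith
    have hfin : 2 * (m:ℝ) - 1 / m - 12 * m / n ≤ (2 * h * (e + g) + e * g) / m +
        (2 * h + e) * (1 - 6 / n) + (2 - 2 / (m:ℝ)) * (m - h) := by
      have e1 : (2 * h * (e + g) + e * g) / m +
        (2 * h + e) * (1 - 6 / n) + (2 - 2 / (m:ℝ)) * (m - h) - (2 * (m:ℝ) - 1 / m - 12 * m / n)
        = ((2 * h * (e + g) + e * g + e * m + 2 * h) - (2 * m - 1)) / m + (12 * m - 6 * (2 * h + e)) / n := by
        field_simp
        ring
      have e2 : 0 ≤ ((2 * h * (e + g) + e * g + e * m + 2 * h) - (2 * m - 1)) / m := by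
        apply div_nonneg _ hm0.le
        have : e + g = m - h := by linarith
        rw [this]; linarith
      have e3 : 0 ≤ (12 * m - 6 * (2 * h + e)) / n := by
        apply div_nonneg _ hn0.le
        nlinarith
      linarith
    linarith

lemma sum_same (x : Fin n × Fin m) : ∑ y : Fin n × Fin m, (if x.1 = y.1 then cc x y else 0) = m - 1 := by
  have h : ∀ y : Fin n × Fin m, (if x.1 = y.1 then cc x y else 0) =
      (if y.1 = x.1 then (1:ℝ) else 0) - (if y = x then 1 else 0) := by
    intro y
    unfold cc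
    by_cases h1 : x.1 = y.1
    · by_cases h2 : x = y
      · simp [h2]
      · have h2' : ¬ y = x := fun h => h2 h.symm
        simp [h1, h2, h2']
    · have h1' : ¬ y.1 = x.1 := fun h => h1 h.symm
      have h2 : ¬ y = x := fun h => h1' (by rw [h])
      simp [h1, h1', h2]
  simp_rw [h, Finset.sum_sub_distrib, sum_cluster]
  simp

lemma sum_far (x : Fin n × Fin m) : ∑ y : Fin n × Fin m, (if x.1 = y.1 then 0 else cc x y) =
    2 * (n * m - m) := by
  have h : ∀ y : Fin n × Fin m, (if x.1 = y.1 then 0 else cc x y) =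
      2 * (1 - (if y.1 = x.1 then (1:ℝ) else 0)) := by
    intro y
    unfold cc
    by_cases h1 : x.1 = y.1
    · simp [h1]
    · have h1' : ¬ y.1 = x.1 := fun h => h1 h.symm
      have h2 : ¬ x = y := fun h => h1 (by rw [h])
      simp [h1, h1', h2]
  simp_rw [h, ← Finset.mul_sum, Finset.sum_sub_distrib, sum_cluster]
  simp

/-- the uniform law on the points `z y`, `y ≠ x`. -/
noncomputable def unifM (z : Fin n × Fin m → ℝ) (x : Fin n × Fin m) : Measure ℝ :=
  (((univ.erase x).card : ℝ≥0∞))⁻¹ • ∑ y ∈ univ.erase x, Measure.dirac (z y)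

lemma unifM_prob (hN : 2 ≤ n * m) (z : Fin n × Fin m → ℝ) (x : Fin n × Fin m) :
    IsProbabilityMeasure (unifM z x) := by
  constructor
  unfold unifM
  have hc : (univ.erase x).card = n * m - 1 := by
    rw [card_erase_of_mem (mem_univ x)]; simp
  rw [Measure.smul_apply, Measure.finsetSum_apply]
  simp only [measure_univ, Finset.sum_const, smul_eq_mul, nsmul_eq_mul, mul_one]
  rw [hc]
  apply ENNReal.inv_mul_cancel
  · simp only [ne_eq, Nat.cast_eq_zero]; omega
  · exact ENNReal.natCast_ne_top _

/-- the uniform law as a probability measure. -/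
noncomputable def unifP (hN : 2 ≤ n * m) (z : Fin n × Fin m → ℝ) (x : Fin n × Fin m) :
    ProbabilityMeasure ℝ := ⟨unifM z x, unifM_prob hN z x⟩

lemma card_er (x : Fin n × Fin m) : (univ.erase x).card = n * m - 1 := by
  rw [card_erase_of_mem (mem_univ x)]; simp

lemma optCost_le (q : ℝ) (hq : 0 < q) (hN : 2 ≤ n * m) (z : Fin n × Fin m → ℝ) (x y : Fin n × Fin m)
    (hxy : x ≠ y) : optCost q (unifP hN z x) (unifP hN z y) ≤
      ((n * m - 1 : ℕ) : ℝ≥0∞)⁻¹ * cost q (z y) (z x) := by
  set π : Measure (ℝ × ℝ) := (((n * m - 1 : ℕ) : ℝ≥0∞))⁻¹ •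
    (∑ w ∈ (univ.erase x).erase y, Measure.dirac (z w, z w) + Measure.dirac (z y, z x)) with hπ
  have hc : ∀ w : Fin n × Fin m, ((univ.erase w).card : ℝ≥0∞) = ((n * m - 1 : ℕ) : ℝ≥0∞) := by
    intro w; rw [card_er]
  have h1 : π.map Prod.fst = unifM z x := by
    rw [hπ, Measure.map_smul, Measure.map_add _ _ measurable_fst,
      Measure.map_finset_sum measurable_fst.aemeasurable]
    simp only [Measure.map_dirac' measurable_fst]
    unfold unifM
    rw [hc, Finset.sum_erase_add _ _ (mem_erase.mpr ⟨hxy.symm, mem_univ y⟩)]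
  have h2 : π.map Prod.snd = unifM z y := by
    rw [hπ, Measure.map_smul, Measure.map_add _ _ measurable_snd,
      Measure.map_finset_sum measurable_snd.aemeasurable]
    simp only [Measure.map_dirac' measurable_snd]
    unfold unifM
    rw [hc, Finset.erase_right_comm, Finset.sum_erase_add _ _ (mem_erase.mpr ⟨hxy, mem_univ x⟩)]
  refine (iInf₂_le π ⟨h1, h2⟩).trans ?_
  rw [hπ, lintegral_smul_measure, lintegral_add_measure, lintegral_finsetSum_measure]
  have h0 : ∀ w, cost q w w = 0 := by
    intro w; unfold cost; simp [Real.zero_rpow hq.ne']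
  have hmeas : Measurable fun z : ℝ × ℝ => cost q z.1 z.2 := by
    unfold cost
    fun_prop
  simp [lintegral_dirac' _ hmeas, h0]

/-- reading off the index of a point. -/
noncomputable def phi (z : Fin n × Fin m → ℝ) (x d : Fin n × Fin m) (v : ℝ) : Fin n × Fin m :=
  open Classical in if h : ∃ y, y ≠ x ∧ z y = v then h.choose else d

lemma phi_ne (z : Fin n × Fin m → ℝ) (x d : Fin n × Fin m) (hd : d ≠ x) (v : ℝ) :
    phi z x d v ≠ x := by
  unfold phi
  split_ifs with h
  · exact h.choose_spec.1
  · exact hd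

lemma phi_spec (z : Fin n × Fin m → ℝ) (x d : Fin n × Fin m) (v : ℝ)
    (h : ∃ y, y ≠ x ∧ z y = v) : z (phi z x d v) = v := by
  unfold phi
  rw [dif_pos h]
  exact h.choose_spec.2

lemma phi_meas (z : Fin n × Fin m → ℝ) (x d : Fin n × Fin m) : Measurable (phi z x d) := by
  classical
  have hfin : (Set.range z).Finite := Set.finite_range z
  apply measurable_of_restrict_of_restrict_compl (s := Set.range z) hfin.measurableSet
  · have : Countable (Set.range z) := hfin.countable.to_subtype
    exact measurable_of_countable _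
  · have : ((Set.range z)ᶜ).domRestrict (phi z x d) = fun _ => d := by
      funext v
      change phi z x d v = d
      unfold phi
      rw [dif_neg]
      rintro ⟨y, -, hy⟩
      exact v.2 ⟨y, hy⟩
    rw [this]
    exact measurable_const

lemma ae_mem (z : Fin n × Fin m → ℝ) (x : Fin n × Fin m) :
    ∀ᵐ v ∂(unifM z x), ∃ y, y ≠ x ∧ z y = v := by
  have hms : MeasurableSet {v : ℝ | ∃ y, y ≠ x ∧ z y = v}ᶜ := by
    apply MeasurableSet.compl
    apply Set.Finite.measurableSet
    apply (Set.finite_range z).subset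
    rintro v ⟨y, -, rfl⟩
    exact ⟨y, rfl⟩
  rw [ae_iff]
  change unifM z x {v : ℝ | ∃ y, y ≠ x ∧ z y = v}ᶜ = 0
  unfold unifM
  rw [Measure.smul_apply, Measure.finsetSum_apply]
  rw [Finset.sum_eq_zero]
  · simp
  intro y hy
  rw [Measure.dirac_apply' _ hms]
  apply Set.indicator_of_notMem
  intro hh
  exact hh ⟨y, ne_of_mem_erase hy, rfl⟩

lemma integral_unifM (z : Fin n × Fin m → ℝ) (x : Fin n × Fin m) (g : ℝ → ℝ) :
    ∫ v, g v ∂(unifM z x) = ((n * m - 1 : ℕ) : ℝ)⁻¹ * ∑ y ∈ univ.erase x, g (z y) := by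
  unfold unifM
  rw [integral_smul_measure, integral_finsetSum_measure]
  · simp only [integral_dirac, card_er, smul_eq_mul, ENNReal.toReal_inv, ENNReal.toReal_natCast]
  · intro y _
    exact integrable_dirac (by simp)


lemma int_lin {μ : Measure ℝ} {A B C : ℝ → ℝ} (hA : Integrable A μ) (hB : Integrable B μ)
    (hC : Integrable C μ) (a b c : ℝ) : ∫ ω, (A ω / a + B ω / b + c * C ω) ∂μ =
      (∫ ω, A ω ∂μ) / a + (∫ ω, B ω ∂μ) / b + c * ∫ ω, C ω ∂μ := by
  have h1 : Integrable (fun ω => A ω / a + B ω / b) μ := (hA.div_const a).add (hB.div_const b)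
  rw [integral_add h1 (hC.const_mul c), integral_add (hA.div_const a) (hB.div_const b),
    integral_div, integral_div, integral_const_mul]

lemma main_ineq (hn : 0 < n) (hm : 0 < m) (hN : 2 ≤ n * m) (q : ℝ) (hq : 0 < q)
    (z : Fin n × Fin m → ℝ) (hz : Function.Injective z) (κ : ℝ) (hκ : 0 ≤ κ)
    (hlow : ∀ x y, x ≠ y → cc x y ≤ |z x - z y| ^ q)
    (hup : ∀ x y, x ≠ y → |z x - z y| ^ q ≤ κ * cc x y)
    (X : ProbabilityMeasure ℝ → ℝ → ℝ) (hX : IsCoupling X) (r : ℝ≥0)
    (hr : ∀ P Q : ProbabilityMeasure ℝ,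
      ∫⁻ u in Set.Icc (0:ℝ) 1, cost q (X P u) (X Q u) ≤ r * optCost q P Q) :
    2 * (m:ℝ) - 1 / m - 12 * m / n ≤
      (r * κ / (n * m - 1)) * ((n * m * (m - 1)) / (2 * m) + (n * m - m)) +
      (2 - 2 / (m:ℝ)) * (n * m * ((m - 1) / (n * m - 1))) := by
  classical
  have hm0 : (0:ℝ) < m := by exact_mod_cast hm
  have hn0 : (0:ℝ) < n := by exact_mod_cast hn
  have hNR : (2:ℝ) ≤ n * m := by exact_mod_cast hN
  have hN1 : (((n * m - 1 : ℕ)) : ℝ) = n * m - 1 := by
    rw [Nat.cast_sub (by omega)]; push_cast; ring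
  have hN1pos : (0:ℝ) < n * m - 1 := by linarith
  set μ : Measure ℝ := volume.restrict (Set.Icc (0:ℝ) 1) with hμ
  have hprob : IsProbabilityMeasure μ := ⟨by simp [hμ]⟩
  set Y : Fin n × Fin m → ℝ → ℝ := fun x => X (unifP hN z x) with hY
  have hYm : ∀ x, AEMeasurable (Y x) μ := fun x => (hX _).1
  have hYl : ∀ x, μ.map (Y x) = unifM z x := fun x => (hX _).2
  have hd : ∀ x : Fin n × Fin m, ∃ d, d ≠ x := by
    intro x
    apply Fintype.exists_ne_of_one_lt_card
    simp; omega
  choose d hd using hd
  set f : ℝ → Fin n × Fin m → Fin n × Fin m := fun ω x => phi z x (d x) (Y x ω) with hf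
  have hfm : ∀ x, AEMeasurable (fun ω => f ω x) μ := fun x =>
    (phi_meas z x (d x)).comp_aemeasurable (hYm x)
  have hfz : ∀ x, ∀ᵐ ω ∂μ, z (f ω x) = Y x ω := by
    intro x
    have h1 : ∀ᵐ v ∂(μ.map (Y x)), ∃ y, y ≠ x ∧ z y = v := by
      rw [hYl]; exact ae_mem z x
    have h2 := ae_of_ae_map (hYm x) h1
    filter_upwards [h2] with ω hω
    exact phi_spec z x (d x) _ hω
  have hccm : ∀ x y, AEMeasurable (fun ω => cc (f ω x) (f ω y)) μ := by
    intro x y
    have h1 : Measurable fun p : (Fin n × Fin m) × (Fin n × Fin m) => cc p.1 p.2 :=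
      measurable_of_countable _
    exact h1.comp_aemeasurable ((hfm x).prodMk (hfm y))
  have hcci : ∀ x y, Integrable (fun ω => cc (f ω x) (f ω y)) μ := by
    intro x y
    refine Integrable.of_bound (hccm x y).aestronglyMeasurable 2 ?_
    filter_upwards with ω
    rw [Real.norm_of_nonneg (cc_nonneg _ _)]
    exact cc_le _ _
  have hI : ∀ x y, ∫ ω, cc (f ω x) (f ω y) ∂μ ≤ r * κ / (n * m - 1) * cc x y := by
    intro x y
    by_cases hxy : x = y
    · subst hxy
      simp [cc]
    have hnn : 0 ≤ r * κ / (n * m - 1) * cc x y :=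
      mul_nonneg (div_nonneg (mul_nonneg r.2 hκ) hN1pos.le) (cc_nonneg _ _)
    rw [integral_eq_lintegral_of_nonneg_ae (Filter.Eventually.of_forall fun ω => cc_nonneg _ _)
      (hccm x y).aestronglyMeasurable]
    apply ENNReal.toReal_le_of_le_ofReal hnn
    calc ∫⁻ ω, ENNReal.ofReal (cc (f ω x) (f ω y)) ∂μ
        ≤ ∫⁻ ω, cost q (X (unifP hN z x) ω) (X (unifP hN z y) ω) ∂μ := by
          apply lintegral_mono_ae
          filter_upwards [hfz x, hfz y] with ω h1 h2
          change ENNReal.ofReal (cc (f ω x) (f ω y)) ≤ cost q (Y x ω) (Y y ω)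
          rw [← h1, ← h2]
          unfold cost
          apply ENNReal.ofReal_le_ofReal
          by_cases h3 : f ω x = f ω y
          · rw [h3]
            have : cc (f ω y) (f ω y) = 0 := by simp [cc]
            rw [this]
            positivity
          · exact hlow _ _ h3
      _ ≤ r * optCost q (unifP hN z x) (unifP hN z y) := hr _ _
      _ ≤ r * (((n * m - 1 : ℕ) : ℝ≥0∞)⁻¹ * cost q (z y) (z x)) := by
          gcongr
          exact optCost_le q hq hN z x y hxy
      _ ≤ ENNReal.ofReal (r * κ / (n * m - 1) * cc x y) := by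
          unfold cost
          have e1 : (r : ℝ≥0∞) = ENNReal.ofReal (r : ℝ) := by simp
          have e2 : (((n * m - 1 : ℕ) : ℝ≥0∞))⁻¹ = ENNReal.ofReal ((n * m - 1 : ℝ)⁻¹) := by
            rw [ENNReal.ofReal_inv_of_pos hN1pos, ← hN1, ENNReal.ofReal_natCast]
          rw [e1, e2, ← ENNReal.ofReal_mul (by positivity), ← ENNReal.ofReal_mul (NNReal.coe_nonneg r)]
          apply ENNReal.ofReal_le_ofReal
          have h3 := hup y x (Ne.symm hxy)
          have h4 : cc y x = cc x y := by
            unfold cc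
            simp only [eq_comm]
          rw [h4] at h3
          have h5 : (n * m - 1 : ℝ)⁻¹ * |z y - z x| ^ q ≤ (n * m - 1 : ℝ)⁻¹ * (κ * cc x y) :=
            mul_le_mul_of_nonneg_left h3 (by positivity)
          calc (r:ℝ) * ((n * m - 1 : ℝ)⁻¹ * |z y - z x| ^ q) ≤ r * ((n * m - 1 : ℝ)⁻¹ * (κ * cc x y)) :=
                mul_le_mul_of_nonneg_left h5 r.2
            _ = r * κ / (n * m - 1) * cc x y := by field_simp
  have hH : ∀ x, ∫ ω, (if (f ω x).1 = x.1 then (1:ℝ) else 0) ∂μ = (m - 1) / (n * m - 1) := by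
    intro x
    have hgm : Measurable fun v => (if (phi z x (d x) v).1 = x.1 then (1:ℝ) else 0) := by
      have h1 : Measurable fun p : Fin n × Fin m => (if p.1 = x.1 then (1:ℝ) else 0) :=
        measurable_of_countable _
      exact h1.comp (phi_meas z x (d x))
    have h1 : ∫ ω, (if (f ω x).1 = x.1 then (1:ℝ) else 0) ∂μ =
        ∫ v, (if (phi z x (d x) v).1 = x.1 then (1:ℝ) else 0) ∂(μ.map (Y x)) := by
      rw [integral_map (hYm x) hgm.aestronglyMeasurable]
    rw [h1, hYl, integral_unifM, hN1, inv_mul_eq_div]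
    congr 1
    have h2 : ∀ y ∈ univ.erase x, (if (phi z x (d x) (z y)).1 = x.1 then (1:ℝ) else 0) =
        (if y.1 = x.1 then (1:ℝ) else 0) := by
      intro y hy
      have h3 : z (phi z x (d x) (z y)) = z y := phi_spec z x (d x) _ ⟨y, ne_of_mem_erase hy, rfl⟩
      rw [hz h3]
    rw [Finset.sum_congr rfl h2]
    have h4 := Finset.sum_erase_add (univ : Finset (Fin n × Fin m))
      (fun y => if y.1 = x.1 then (1:ℝ) else 0) (mem_univ x)
    rw [sum_cluster, if_pos rfl] at h4
    linarith
  have hHm : ∀ x, Integrable (fun ω => (if (f ω x).1 = x.1 then (1:ℝ) else 0)) μ := by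
    intro x
    have h1 : Measurable fun p : Fin n × Fin m => (if p.1 = x.1 then (1:ℝ) else 0) :=
      measurable_of_countable _
    refine Integrable.of_bound (h1.comp_aemeasurable (hfm x)).aestronglyMeasurable 1 ?_
    filter_upwards with ω
    split_ifs <;> simp
  -- integrate the combinatorial inequality
  have hSi : ∀ x y : Fin n × Fin m, Integrable (fun ω => if x.1 = y.1 then cc (f ω x) (f ω y) else 0) μ := by
    intro x y
    by_cases h : x.1 = y.1
    · simp only [h, if_true]; exact hcci x y
    · simp only [h, if_false]; exact integrable_zero _ _ _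
  have hFi : ∀ x y : Fin n × Fin m, Integrable (fun ω => if x.1 = y.1 then 0 else cc (f ω x) (f ω y)) μ := by
    intro x y
    by_cases h : x.1 = y.1
    · simp only [h, if_true]; exact integrable_zero _ _ _
    · simp only [h, if_false]; exact hcci x y
  have hS1 : Integrable (fun ω => ∑ x, ∑ y, if x.1 = y.1 then cc (f ω x) (f ω y) else 0) μ :=
    integrable_finsetSum _ fun x _ => integrable_finsetSum _ fun y _ => hSi x y
  have hF1 : Integrable (fun ω => ∑ x, ∑ y, if x.1 = y.1 then 0 else cc (f ω x) (f ω y)) μ :=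
    integrable_finsetSum _ fun x _ => integrable_finsetSum _ fun y _ => hFi x y
  have hH1 : Integrable (fun ω => ∑ x, (if (f ω x).1 = x.1 then (1:ℝ) else 0)) μ :=
    integrable_finsetSum _ fun x _ => hHm x
  have key : 2 * (m:ℝ) - 1 / m - 12 * m / n ≤
      ∫ ω, ((∑ x, ∑ y, if x.1 = y.1 then cc (f ω x) (f ω y) else 0) / (2 * m) +
      (∑ x, ∑ y, if x.1 = y.1 then 0 else cc (f ω x) (f ω y)) / (2 * (n * m)) +
      (2 - 2 / (m:ℝ)) * ∑ x, (if (f ω x).1 = x.1 then (1:ℝ) else 0)) ∂μ := by
    have h1 : ∫ ω, (2 * (m:ℝ) - 1 / m - 12 * m / n) ∂μ = 2 * (m:ℝ) - 1 / m - 12 * m / n := by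
      simp
    rw [← h1]
    apply integral_mono (integrable_const _)
    · exact ((hS1.div_const _).add (hF1.div_const _)).add (hH1.const_mul _)
    · intro ω
      exact comb hn hm (f ω) fun x => phi_ne z x (d x) (hd x) _
  rw [int_lin hS1 hF1 hH1, integral_finsetSum _ (fun x _ => hHm x)] at key
  rw [Finset.sum_congr rfl (fun x _ => hH x)] at key
  have hS2 : ∫ ω, (∑ x, ∑ y, if x.1 = y.1 then cc (f ω x) (f ω y) else 0) ∂μ ≤
      r * κ / (n * m - 1) * (n * m * (m - 1)) := by
    rw [integral_finsetSum _ (fun x _ => integrable_finsetSum _ fun y _ => hSi x y)]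
    calc _ ≤ ∑ x : Fin n × Fin m, r * κ / (n * m - 1) * ((m:ℝ) - 1) := by
          apply Finset.sum_le_sum; intro x _
          rw [integral_finsetSum _ (fun y _ => hSi x y), ← sum_same x, Finset.mul_sum]
          apply Finset.sum_le_sum; intro y _
          by_cases h : x.1 = y.1
          · simp only [h, if_true]; exact hI x y
          · simp [h]
      _ = _ := by
          rw [Finset.sum_const, nsmul_eq_mul, Finset.card_univ]
          simp
          ring
  have hF2 : ∫ ω, (∑ x, ∑ y, if x.1 = y.1 then 0 else cc (f ω x) (f ω y)) ∂μ ≤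
      r * κ / (n * m - 1) * (n * m * (2 * (n * m - m))) := by
    rw [integral_finsetSum _ (fun x _ => integrable_finsetSum _ fun y _ => hFi x y)]
    calc _ ≤ ∑ x : Fin n × Fin m, r * κ / (n * m - 1) * (2 * ((n:ℝ) * m - m)) := by
          apply Finset.sum_le_sum; intro x _
          rw [integral_finsetSum _ (fun y _ => hFi x y), ← sum_far x, Finset.mul_sum]
          apply Finset.sum_le_sum; intro y _
          by_cases h : x.1 = y.1
          · simp [h]
          · simp only [h, if_false]; exact hI x y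
      _ = _ := by
          rw [Finset.sum_const, nsmul_eq_mul, Finset.card_univ]
          simp
          ring
  refine key.trans ?_
  have e1 := div_le_div_of_nonneg_right hS2 (by positivity : (0:ℝ) ≤ 2 * m)
  have e2 := div_le_div_of_nonneg_right hF2 (by positivity : (0:ℝ) ≤ 2 * (n * m))
  have e3 : r * κ / (n * m - 1) * (n * m * (m - 1)) / (2 * m) +
      r * κ / (n * m - 1) * (n * m * (2 * (n * m - m))) / (2 * (n * m)) =
      (r * κ / (n * m - 1)) * ((n * m * (m - 1)) / (2 * m) + (n * m - m)) := by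
    field_simp
  have e4 : ∑ _x : Fin n × Fin m, ((m:ℝ) - 1) / (n * m - 1) = n * m * ((m - 1) / (n * m - 1)) := by
    rw [Finset.sum_const, nsmul_eq_mul, Finset.card_univ]; simp
  rw [e4]
  linarith


/-- the configuration of points. -/
noncomputable def zz (q : ℝ) (x : Fin 1000 × Fin 6) : ℝ :=
  (x.1 : ℕ) * ((2:ℝ) ^ (1 / q) + 6) + (x.2 : ℕ)

lemma final (q : ℝ) (hq : 0 < q) (hq1 : q ≤ 1 / 100)
    (X : ProbabilityMeasure ℝ → ℝ → ℝ) (hX : IsCoupling X) (r : ℝ≥0)
    (hr : ∀ P Q : ProbabilityMeasure ℝ,
      ∫⁻ u in Set.Icc (0:ℝ) 1, cost q (X P u) (X Q u) ≤ r * optCost q P Q) :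
    (9 / 4 : ℝ) ≤ r := by
  set L : ℝ := (2:ℝ) ^ (1 / q) with hL
  have hLq : L ^ q = 2 := by
    rw [hL, ← Real.rpow_mul (by norm_num), one_div_mul_cancel hq.ne', Real.rpow_one]
  have hL6000 : 6000 ≤ L := by
    rw [hL]
    have h1 : (2:ℝ) ^ (100:ℝ) ≤ (2:ℝ) ^ (1 / q) := by
      apply Real.rpow_le_rpow_of_exponent_le (by norm_num)
      rw [le_div_iff₀ hq]; linarith
    refine le_trans ?_ h1
    rw [show (100:ℝ) = ((100:ℕ):ℝ) by norm_num, Real.rpow_natCast]
    norm_num
  -- distances
  have hsame : ∀ x y : Fin 1000 × Fin 6, x ≠ y → x.1 = y.1 →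
      1 ≤ |zz q x - zz q y| ∧ |zz q x - zz q y| ≤ 5 := by
    intro x y hxy h1
    have h2 : (x.2 : ℕ) ≠ (y.2 : ℕ) := by
      intro h; exact hxy (Prod.ext h1 (Fin.ext h))
    have h3 : zz q x - zz q y = (((x.2 : ℕ) : ℤ) - ((y.2 : ℕ) : ℤ) : ℤ) := by
      unfold zz; rw [h1]; push_cast; ring
    rw [h3, ← Int.cast_abs]
    have hx := x.2.2
    have hy := y.2.2
    constructor
    · have : (1:ℤ) ≤ |((x.2 : ℕ) : ℤ) - ((y.2 : ℕ) : ℤ)| := by
        apply Int.one_le_abs; omega
      exact_mod_cast this
    · have : |((x.2 : ℕ) : ℤ) - ((y.2 : ℕ) : ℤ)| ≤ 5 := by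
        rw [abs_le]; omega
      exact_mod_cast this
  have hfar : ∀ x y : Fin 1000 × Fin 6, x.1 ≠ y.1 →
      L ≤ |zz q x - zz q y| ∧ |zz q x - zz q y| ≤ 1001 * L := by
    intro x y h1
    have h3 : zz q x - zz q y = ((((x.1 : ℕ) : ℤ) - ((y.1 : ℕ) : ℤ) : ℤ) : ℝ) * (L + 6) +
        ((((x.2 : ℕ) : ℤ) - ((y.2 : ℕ) : ℤ) : ℤ) : ℝ) := by
      unfold zz; push_cast; ring
    have hx := x.2.2
    have hy := y.2.2
    have hx1 := x.1.2
    have hy1 := y.1.2
    have a1 : (1:ℤ) ≤ |((x.1 : ℕ) : ℤ) - ((y.1 : ℕ) : ℤ)| := by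
      apply Int.one_le_abs
      intro h
      apply h1; apply Fin.ext; omega
    have a2 : |((x.1 : ℕ) : ℤ) - ((y.1 : ℕ) : ℤ)| ≤ 999 := by
      rw [abs_le]; omega
    have a3 : |((x.2 : ℕ) : ℤ) - ((y.2 : ℕ) : ℤ)| ≤ 5 := by
      rw [abs_le]; omega
    have b1 : (1:ℝ) ≤ |((((x.1 : ℕ) : ℤ) - ((y.1 : ℕ) : ℤ) : ℤ) : ℝ)| := by
      rw [← Int.cast_abs]; exact_mod_cast a1
    have b2 : |((((x.1 : ℕ) : ℤ) - ((y.1 : ℕ) : ℤ) : ℤ) : ℝ)| ≤ 999 := by
      rw [← Int.cast_abs]; exact_mod_cast a2
    have b3 : |((((x.2 : ℕ) : ℤ) - ((y.2 : ℕ) : ℤ) : ℤ) : ℝ)| ≤ 5 := by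
      rw [← Int.cast_abs]; exact_mod_cast a3
    set u := ((((x.1 : ℕ) : ℤ) - ((y.1 : ℕ) : ℤ) : ℤ) : ℝ)
    set v := ((((x.2 : ℕ) : ℤ) - ((y.2 : ℕ) : ℤ) : ℤ) : ℝ)
    rw [h3]
    have c1 : |u * (L + 6)| = |u| * (L + 6) := by
      rw [abs_mul, abs_of_pos (by linarith : (0:ℝ) < L + 6)]
    constructor
    · have h4 : |u * (L + 6)| - |v| ≤ |u * (L + 6) + v| := by
        have := abs_sub_abs_le_abs_sub (u * (L + 6)) (-v)
        rw [abs_neg, sub_neg_eq_add] at this
        exact this
      rw [c1] at h4
      nlinarith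
    · have h4 : |u * (L + 6) + v| ≤ |u * (L + 6)| + |v| := abs_add_le _ _
      rw [c1] at h4
      nlinarith
  have hinj : Function.Injective (zz q) := by
    intro x y hxy
    by_contra hne
    by_cases h1 : x.1 = y.1
    · have := (hsame x y hne h1).1
      rw [hxy, sub_self, abs_zero] at this
      linarith
    · have := (hfar x y h1).1
      rw [hxy, sub_self, abs_zero] at this
      linarith
  have hlow : ∀ x y : Fin 1000 × Fin 6, x ≠ y → cc x y ≤ |zz q x - zz q y| ^ q := by
    intro x y hxy
    unfold cc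
    rw [if_neg hxy]
    by_cases h1 : x.1 = y.1
    · rw [if_pos h1]
      exact Real.one_le_rpow (hsame x y hxy h1).1 hq.le
    · rw [if_neg h1, ← hLq]
      exact Real.rpow_le_rpow (by linarith) (hfar x y h1).1 hq.le
  have hup : ∀ x y : Fin 1000 × Fin 6, x ≠ y → |zz q x - zz q y| ^ q ≤ 1.0716 * cc x y := by
    have h1001 : (1001:ℝ) ^ q ≤ 1.0716 := by
      calc (1001:ℝ) ^ q ≤ (1001:ℝ) ^ ((1:ℝ) / 100) :=
            Real.rpow_le_rpow_of_exponent_le (by norm_num) hq1
        _ ≤ ((1.0716:ℝ) ^ (100:ℕ)) ^ ((1:ℝ) / 100) := by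
            apply Real.rpow_le_rpow (by norm_num) _ (by norm_num)
            norm_num
        _ = 1.0716 := by
            rw [← Real.rpow_natCast, ← Real.rpow_mul (by norm_num)]
            norm_num
    intro x y hxy
    unfold cc
    rw [if_neg hxy]
    by_cases h1 : x.1 = y.1
    · rw [if_pos h1, mul_one]
      refine le_trans ?_ h1001
      exact Real.rpow_le_rpow (abs_nonneg _) ((hsame x y hxy h1).2.trans (by norm_num)) hq.le
    · rw [if_neg h1]
      calc |zz q x - zz q y| ^ q ≤ (1001 * L) ^ q :=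
            Real.rpow_le_rpow (abs_nonneg _) (hfar x y h1).2 hq.le
        _ = 1001 ^ q * 2 := by
            rw [Real.mul_rpow (by norm_num) (by linarith), hLq]
        _ ≤ 1.0716 * 2 := by
            apply mul_le_mul_of_nonneg_right h1001 (by norm_num)
  have key := main_ineq (n := 1000) (m := 6) (by norm_num) (by norm_num) (by norm_num) q hq
    (zz q) hinj 1.0716 (by norm_num) hlow hup X hX r hr
  norm_num at key
  linarith

/-- For every exponent `0 < q ≤ 1/100` the optimal pairwise coupling ratio of the cost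
`|x - y|^q` on the line is at least `9/4`. -/
theorem result (q : ℝ) (hq : 0 < q) (hq1 : q ≤ 1 / 100) : (9 / 4 : ℝ≥0∞) ≤ optRatio q := by
  unfold optRatio ratio
  refine le_iInf₂ fun X hX => le_iInf₂ fun r hr => ?_
  have h := final q hq hq1 X hX r hr.2
  have h1 : (9 / 4 : ℝ≥0) ≤ r := by
    rw [← NNReal.coe_le_coe]; push_cast; exact h
  have h2 : ((9 / 4 : ℝ≥0) : ℝ≥0∞) = 9 / 4 := by
    rw [ENNReal.coe_div (by norm_num)]; norm_num
  rw [← h2]
  exact_mod_cast h1

end
end Pool.Agent.Results.MP_ee92c9_pr.TwoFails
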